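import Pool.Agent.H6.FB.Stmts

/-!
# Project FB, LRG: no strictly larger domain
-/

set_option autoImplicit false

open Metric Set Filter Topology

namespace Pool.Agent.H6.FB

theorem lrg_thm (hRGE : RGEStmt) (hINV : INVStmt) : LRGStmt := by
  intro E _ _ _ f _ hN hinj hBD Ω hΩ hpre hss
  haveI : ProperSpace E := FiniteDimensional.proper ℂ E
  have hinjb : InjOn f (ball 0 1) := hinj.mono ball_subset_closedBall
  have hDo : IsOpen (f '' ball (0 : E) 1) :=
    (hINV E f (ball 0 1) isOpen_ball hN.2 hinjb).1 (ball 0 1) isOpen_ball subset_rfl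
  have hcl : IsClosed (f '' closedBall (0 : E) 1) :=
    ((isCompact_closedBall (0 : E) 1).image_of_continuousOn hN.1).isClosed
  have hne : (f '' ball (0 : E) 1).Nonempty := ⟨f 0, 0, mem_ball_self one_pos, rfl⟩
  obtain ⟨hsub, hnot⟩ := hss
  have hex : ∃ v ∈ sphere (0 : E) 1, f v ∈ Ω := by
    by_contra hcon
    push Not at hcon
    have hcov : Ω ⊆ f '' ball (0 : E) 1 ∪ (f '' closedBall (0 : E) 1)ᶜ := by
      intro w hw
      by_cases h : w ∈ f '' closedBall (0 : E) 1
      · obtain ⟨z, hz, rfl⟩ := h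
        left
        refine ⟨z, ?_, rfl⟩
        rw [mem_closedBall, dist_zero_right] at hz
        rw [mem_ball, dist_zero_right]
        refine lt_of_le_of_ne hz fun h1 => hcon z ?_ hw
        rw [mem_sphere, dist_zero_right, h1]
      · exact Or.inr h
    have h1 : (Ω ∩ f '' ball (0 : E) 1).Nonempty := by
      obtain ⟨w, hw⟩ := hne
      exact ⟨w, hsub hw, hw⟩
    have h2 : (Ω ∩ (f '' closedBall (0 : E) 1)ᶜ).Nonempty := by
      obtain ⟨w, hw, hw'⟩ := Set.not_subset.1 hnot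
      rcases hcov hw with h | h
      · exact absurd h hw'
      · exact ⟨w, hw, h⟩
    obtain ⟨w, -, hw1, hw2⟩ := hpre _ _ hDo hcl.isOpen_compl hcov h1 h2
    exact hw2 (image_mono ball_subset_closedBall hw1)
  obtain ⟨v, hv, hvΩ⟩ := hex
  obtain ⟨ε, hε, hball⟩ := Metric.isOpen_iff.1 hΩ _ hvΩ
  obtain ⟨d, hd, hd2⟩ := hBD v hv ε hε
  refine hRGE E f d Ω hN hinjb hd hΩ fun ζ hζ => hball ?_
  rw [mem_ball, dist_eq_norm]
  exact hd2 ζ hζ

end Pool.Agent.H6.FB
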